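import Pool.Agent.Helper38.RS.Goals3

/-!
# Project RS (MP_fc6b1e_nt): packet RS-ZET (the pole)
-/

namespace Pool.Agent.Helper61.RS.Zet

open NumberField Module IsDedekindDomain Pool.Agent.Helper38.RS Filter Topology

section

variable (F : Type) [Field F] [NumberField F]

/-- Nonzero ideals. -/
abbrev NZ := {J : Ideal (𝓞 F) // J ≠ ⊥}

/-- The number of ideals of norm `n`. -/
noncomputable def cnt (n : ℕ) : ℕ := Nat.card {I : Ideal (𝓞 F) // Ideal.absNorm I = n}

variable {F}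

/-- The terms. -/
noncomputable def tm (s : ℝ) (J : NZ F) : ℝ := (Ideal.absNorm J.1 : ℝ) ^ (-s)

theorem absNorm_ne_zero (J : NZ F) : Ideal.absNorm J.1 ≠ 0 := by
  rw [Ne, Ideal.absNorm_eq_zero_iff]
  exact J.2

theorem one_le_absNorm (J : NZ F) : (1 : ℝ) ≤ (Ideal.absNorm J.1 : ℝ) := by
  exact_mod_cast Nat.one_le_iff_ne_zero.mpr (absNorm_ne_zero J)

theorem Lf_eq (s : ℝ) : Lf (F := F) (fun _ ↦ 1) s = ∑' J : NZ F, tm s J := by
  unfold Lf tm
  simp only [one_mul]

/-- The norm map. -/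
noncomputable def nm (J : NZ F) : ℕ := Ideal.absNorm J.1

theorem fibre_sum (s : ℝ) (n : ℕ) (hn : n ≠ 0) :
    ∑' J : (nm (F := F)) ⁻¹' {n}, tm s J.1 = (cnt F n : ℝ) * (n : ℝ) ^ (-s) := by
  have h1 : ∀ J : (nm (F := F)) ⁻¹' {n}, tm s J.1 = (n : ℝ) ^ (-s) := by
    intro J
    have h : nm J.1 = n := J.2
    unfold tm
    unfold nm at h
    rw [h]
  have e : ((nm (F := F)) ⁻¹' {n}) ≃ {I : Ideal (𝓞 F) // Ideal.absNorm I = n} :=
    { toFun := fun J ↦ ⟨J.1.1, J.2⟩
      invFun := fun I ↦ ⟨⟨I.1, by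
        intro h
        have h2 := I.2
        rw [h, Ideal.absNorm_bot] at h2
        exact hn h2.symm⟩, I.2⟩
      left_inv := fun J ↦ rfl
      right_inv := fun I ↦ rfl }
  rw [tsum_congr h1, tsum_const, Nat.card_congr e, nsmul_eq_mul]
  rfl

theorem fibre_zero (s : ℝ) :
    ∑' J : (nm (F := F)) ⁻¹' {0}, tm s J.1 = 0 := by
  have h : IsEmpty ((nm (F := F)) ⁻¹' {0}) := by
    constructor
    intro J
    exact absNorm_ne_zero J.1 J.2
  exact tsum_empty

theorem zeta_eq {s : ℝ} (hsum : Summable (tm (F := F) s)) :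
    dedekindZeta F (s : ℂ) = ((∑' J : NZ F, tm s J : ℝ) : ℂ) := by
  have h1 : HasSum (fun n : ℕ ↦ ∑' J : (nm (F := F)) ⁻¹' {n}, tm s J.1) (∑' J : NZ F, tm s J) :=
    HasSum.tsum_fiberwise hsum.hasSum nm
  rw [← h1.tsum_eq, Complex.ofReal_tsum]
  unfold dedekindZeta LSeries
  refine tsum_congr fun n ↦ ?_
  by_cases hn : n = 0
  · rw [hn, LSeries.term_zero, fibre_zero]
    simp
  · rw [LSeries.term_of_ne_zero hn, fibre_sum s n hn]
    rw [Complex.ofReal_mul, Real.rpow_neg (by positivity), Complex.ofReal_inv,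
      Complex.ofReal_cpow (by positivity)]
    simp only [Complex.ofReal_natCast]
    rw [div_eq_mul_inv]
    rfl

theorem tm_nonneg (s : ℝ) (J : NZ F) : 0 ≤ tm s J := Real.rpow_nonneg (by positivity) _

theorem tm_mono {s t : ℝ} (h : s ≤ t) (J : NZ F) : tm t J ≤ tm s J :=
  Real.rpow_le_rpow_of_exponent_le (one_le_absNorm J) (by linarith)

end

theorem s_zet (h1 : S_EUL) : S_ZET := by
  intro F _ _
  obtain ⟨C₁, hC₁⟩ := h1 F
  have hE : ∀ s : ℝ, 1 < s → Summable (tm (F := F) s) ∧ 0 < ∑' J : NZ F, tm s J := by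
    intro s hs
    obtain ⟨a, b, -⟩ := hC₁ (fun _ ↦ 1) rfl (fun _ _ ↦ by norm_num) (fun _ ↦ by norm_num) s hs
    rw [Lf_eq] at b
    exact ⟨a, b⟩
  set Z : ℝ → ℝ := fun s ↦ ∑' J : NZ F, tm s J with hZ
  have hlim : Tendsto (fun s : ℝ ↦ (s - 1) * Z s) (𝓝[>] 1) (𝓝 (dedekindZeta_residue F)) := by
    have h := tendsto_sub_one_mul_dedekindZeta_nhdsGT F
    have h2 := (Complex.continuous_re.tendsto _).comp h
    rw [Complex.ofReal_re] at h2
    refine h2.congr' ?_
    filter_upwards [self_mem_nhdsWithin] with s hs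
    have hs1 : 1 < s := hs
    simp only [Function.comp_apply]
    rw [zeta_eq (hE s hs1).1]
    rw [← Complex.ofReal_one, ← Complex.ofReal_sub, ← Complex.ofReal_mul, Complex.ofReal_re]
  have hρ := dedekindZeta_residue_pos F
  set ρ := dedekindZeta_residue F with hρd
  have hev : ∀ᶠ s in 𝓝[>] (1 : ℝ), (s - 1) * Z s ∈ Set.Ioo (ρ / 2) (2 * ρ) :=
    hlim.eventually (Ioo_mem_nhds (by linarith) (by linarith))
  rw [eventually_nhdsWithin_iff, Metric.eventually_nhds_iff] at hev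
  obtain ⟨ε, hε, hev⟩ := hev
  set t : ℝ := 1 + ε / 2 with ht
  have ht1 : 1 < t := by rw [ht]; linarith
  set c₀ : ℝ := min (ρ / 2) (ε / 2) with hc₀
  set C₀ : ℝ := max (2 * ρ) (Z t) with hC₀
  have hc₀p : 0 < c₀ := lt_min (by linarith) (by linarith)
  have hkey : ∀ s : ℝ, 1 < s → s ≤ 2 → c₀ ≤ (s - 1) * Z s ∧ (s - 1) * Z s ≤ C₀ := by
    intro s hs hs2
    by_cases hst : s < t
    · have h := hev (y := s) (by
        rw [Real.dist_eq, abs_of_pos (by linarith)]
        rw [ht] at hst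
        linarith) hs
      exact ⟨(min_le_left _ _).trans h.1.le, h.2.le.trans (le_max_left _ _)⟩
    · rw [not_lt] at hst
      have hZ1 : 1 ≤ Z s := by
        have hle := (hE s hs).1.le_tsum (⟨⊤, top_ne_bot⟩ : NZ F) (fun J _ ↦ tm_nonneg s J)
        have h2 : tm s (⟨⊤, top_ne_bot⟩ : NZ F) = 1 := by
          unfold tm
          simp
        rw [h2] at hle
        exact hle
      have hZt : Z s ≤ Z t :=
        Summable.tsum_le_tsum (fun J ↦ tm_mono hst J) (hE s hs).1 (hE t ht1).1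
      constructor
      · refine (min_le_right _ _).trans ?_
        have : ε / 2 ≤ s - 1 := by rw [ht] at hst; linarith
        nlinarith
      · refine le_trans ?_ (le_max_right _ _)
        have : Z s * (s - 1) ≤ Z t * 1 :=
          mul_le_mul hZt (by linarith) (by linarith) (by linarith)
        linarith
  refine ⟨max (max |Real.log c₀| |Real.log C₀|) C₀, ?_⟩
  intro s hs hs2
  obtain ⟨ha, hb⟩ := hkey s hs hs2
  have hpos : 0 < Z s := (hE s hs).2
  have hs1 : 0 < s - 1 := by linarith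
  rw [Lf_eq]
  change |Real.log (Z s) - Real.log (1 / (s - 1))| ≤ _ ∧ 0 < Z s ∧ Z s ≤ _
  refine ⟨?_, hpos, ?_⟩
  · have e : Real.log (Z s) - Real.log (1 / (s - 1)) = Real.log ((s - 1) * Z s) := by
      rw [one_div, Real.log_inv, Real.log_mul hs1.ne' hpos.ne']
      ring
    rw [e]
    have hl : Real.log c₀ ≤ Real.log ((s - 1) * Z s) := Real.log_le_log hc₀p ha
    have hu : Real.log ((s - 1) * Z s) ≤ Real.log C₀ := Real.log_le_log (by positivity) hb
    refine le_trans ?_ (le_max_left _ _)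
    exact abs_le_max_abs_abs hl hu
  · rw [le_div_iff₀ hs1]
    refine le_trans ?_ (le_max_right _ _)
    linarith

end Pool.Agent.Helper61.RS.Zet

theorem Pool.Agent.Helper61.RS.s_zet (h1 : Pool.Agent.Helper38.RS.S_EUL) :
    Pool.Agent.Helper38.RS.S_ZET := Pool.Agent.Helper61.RS.Zet.s_zet h1
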