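import Pool.Agent.Helper38.RS.Goals3

/-!
# Project RS (MP_fc6b1e_nt): packet RS-HLF (half of the primes)
-/

namespace Pool.Agent.Helper61.RS

open NumberField Module IsDedekindDomain Pool.Agent.Helper38.RS

section

variable {F : Type} [Field F] [NumberField F]

theorem psi_top {𝔪 : Ideal (𝓞 F)} {ψ : Ideal (𝓞 F) → ℝ} (hψ : IsPsi 𝔪 ψ) : ψ ⊤ = 1 := by
  have h1 : ψ ⊤ = 1 ∨ ψ ⊤ = -1 := hψ.cop ⊤ top_ne_bot (by simp)
  have h2 : ψ ⊤ = ψ ⊤ * ψ ⊤ := by
    have := hψ.mul ⊤ ⊤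
    simpa using this
  rcases h1 with h | h
  · exact h
  · rw [h] at h2
    norm_num at h2

theorem psi_cases {𝔪 : Ideal (𝓞 F)} {ψ : Ideal (𝓞 F) → ℝ} (hψ : IsPsi 𝔪 ψ) (I : Ideal (𝓞 F)) :
    ψ I = 1 ∨ ψ I = -1 ∨ ψ I = 0 := by
  by_cases hI : I = ⊥
  · right; right
    rw [hI]
    exact hψ.zero
  by_cases hc : I ⊔ 𝔪 = ⊤
  · rcases hψ.cop I hI hc with h | h
    · exact Or.inl h
    · exact Or.inr (Or.inl h)
  · exact Or.inr (Or.inr (hψ.ncop I hI hc))

theorem psi_abs {𝔪 : Ideal (𝓞 F)} {ψ : Ideal (𝓞 F) → ℝ} (hψ : IsPsi 𝔪 ψ) (I : Ideal (𝓞 F)) :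
    |ψ I| ≤ 1 := by
  rcases psi_cases hψ I with h | h | h <;> rw [h] <;> simp

theorem psi_zero_finite {𝔪 : Ideal (𝓞 F)} {ψ : Ideal (𝓞 F) → ℝ} (hψ : IsPsi 𝔪 ψ) :
    {v : HeightOneSpectrum (𝓞 F) | ψ v.asIdeal = 0}.Finite := by
  refine (Ideal.finite_factors (I := 𝔪) hψ.ne).subset ?_
  intro v hv
  simp only [Set.mem_ofPred_eq] at hv ⊢
  rw [Ideal.dvd_iff_le]
  by_contra hcon
  have hmax : v.asIdeal.IsMaximal := v.isMaximal
  have htop : v.asIdeal ⊔ 𝔪 = ⊤ := by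
    refine hmax.1.2 _ (lt_of_le_of_ne le_sup_left ?_)
    intro h
    apply hcon
    rw [h]
    exact le_sup_right
  rcases hψ.cop v.asIdeal v.ne_bot htop with h | h <;> rw [h] at hv <;> norm_num at hv

/-- The primes as nonzero ideals. -/
def toNz (v : HeightOneSpectrum (𝓞 F)) : {J : Ideal (𝓞 F) // J ≠ ⊥} := ⟨v.asIdeal, v.ne_bot⟩

omit [NumberField F] in
theorem toNz_injective : Function.Injective (toNz (F := F)) := by
  intro v w hvw
  have h : v.asIdeal = w.asIdeal := by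
    have := congrArg Subtype.val hvw
    exact this
  exact HeightOneSpectrum.ext_iff.mpr h

theorem summable_primes {s : ℝ}
    (h : Summable fun J : {J : Ideal (𝓞 F) // J ≠ ⊥} ↦ (Ideal.absNorm J.1 : ℝ) ^ (-s)) :
    Summable fun v : HeightOneSpectrum (𝓞 F) ↦ (Ideal.absNorm v.asIdeal : ℝ) ^ (-s) := by
  have h2 := h.comp_injective toNz_injective
  refine h2.congr ?_
  intro v
  rfl

theorem norm_ge_one (v : HeightOneSpectrum (𝓞 F)) : (1 : ℝ) ≤ (Ideal.absNorm v.asIdeal : ℝ) := by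
  have h : Ideal.absNorm v.asIdeal ≠ 0 := by
    rw [Ne, Ideal.absNorm_eq_zero_iff]
    exact v.ne_bot
  exact_mod_cast Nat.one_le_iff_ne_zero.mpr h

theorem term_nonneg (v : HeightOneSpectrum (𝓞 F)) (s : ℝ) :
    0 ≤ (Ideal.absNorm v.asIdeal : ℝ) ^ (-s) :=
  Real.rpow_nonneg (by positivity) _

theorem term_le_one (v : HeightOneSpectrum (𝓞 F)) {s : ℝ} (hs : 1 < s) :
    (Ideal.absNorm v.asIdeal : ℝ) ^ (-s) ≤ 1 :=
  Real.rpow_le_one_of_one_le_of_nonpos (norm_ge_one v) (by linarith)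

end

theorem s_hlf (h1 : S_LBD) (h2 : S_EUL) (h3 : S_PSM) : S_HLF := by
  intro F _ _ _ 𝔪 ψ hψ
  obtain ⟨C₂, hC₂⟩ := h1 F 𝔪 ψ hψ
  obtain ⟨C₁, hC₁⟩ := h2 F
  obtain ⟨C₃, hC₃⟩ := h3 F
  set Z : Set (HeightOneSpectrum (𝓞 F)) := {v | ψ v.asIdeal = 0} with hZ
  have hZf : Z.Finite := psi_zero_finite hψ
  refine ⟨(C₁ + C₂ + C₃ + hZf.toFinset.card) / 2, ?_⟩
  intro s hs hs2
  obtain ⟨hsum, hpos, hlog⟩ := hC₁ ψ (psi_top hψ) hψ.mul (psi_abs hψ) s hs
  have hL := hC₂ s hs hs2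
  have hP := hC₃ s hs hs2
  set f : HeightOneSpectrum (𝓞 F) → ℝ := fun v ↦ (Ideal.absNorm v.asIdeal : ℝ) ^ (-s) with hf
  have hfs : Summable f := summable_primes hsum
  have hψfs : Summable fun v ↦ ψ v.asIdeal * f v := by
    refine Summable.of_norm_bounded hfs ?_
    intro v
    rw [norm_mul, Real.norm_eq_abs, Real.norm_eq_abs, abs_of_nonneg (term_nonneg v s)]
    exact mul_le_of_le_one_left (term_nonneg v s) (psi_abs hψ _)
  have hA : pz (F := F) Set.univ s = ∑' v, f v := by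
    unfold pz
    exact tsum_univ f
  have hB : pz {v : HeightOneSpectrum (𝓞 F) | ψ v.asIdeal = -1} s =
      ∑' v, Set.indicator {v : HeightOneSpectrum (𝓞 F) | ψ v.asIdeal = -1} f v := by
    unfold pz
    exact tsum_subtype _ f
  have hlogle : Real.log (Lf ψ s) ≤ C₂ :=
    (Real.log_le_self hpos.le).trans ((le_abs_self _).trans hL)
  have hψsum : ∑' v, ψ v.asIdeal * f v ≤ C₁ + C₂ := by
    have := (abs_le.mp hlog).1
    linarith
  have hIs : Summable (Set.indicator {v : HeightOneSpectrum (𝓞 F) | ψ v.asIdeal = -1} f) :=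
    hfs.indicator _
  have hZs : Summable (Set.indicator Z (fun _ ↦ (1 : ℝ))) := by
    refine summable_of_hasFiniteSupport (hZf.subset ?_)
    exact Set.support_indicator_subset
  have hZt : ∑' v, Set.indicator Z (fun _ ↦ (1 : ℝ)) v = hZf.toFinset.card := by
    rw [tsum_eq_sum (s := hZf.toFinset)]
    · rw [Finset.sum_congr rfl (g := fun _ ↦ (1 : ℝ))]
      · simp
      · intro v hv
        exact Set.indicator_of_mem (hZf.mem_toFinset.mp hv) _
    · intro v hv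
      exact Set.indicator_of_notMem (fun h ↦ hv (hZf.mem_toFinset.mpr h)) _
  have hpt : ∀ v, f v - ψ v.asIdeal * f v ≤
      2 * Set.indicator {v : HeightOneSpectrum (𝓞 F) | ψ v.asIdeal = -1} f v +
        Set.indicator Z (fun _ ↦ (1 : ℝ)) v := by
    intro v
    have hfv0 : 0 ≤ f v := term_nonneg v s
    have hfv1 : f v ≤ 1 := term_le_one v hs
    rcases psi_cases hψ v.asIdeal with h | h | h
    · have n1 : v ∉ {v : HeightOneSpectrum (𝓞 F) | ψ v.asIdeal = -1} := by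
        intro hv
        have hv' : ψ v.asIdeal = -1 := hv
        rw [h] at hv'
        norm_num at hv'
      have n2 : v ∉ Z := by
        intro hv
        have hv' : ψ v.asIdeal = 0 := hv
        rw [h] at hv'
        norm_num at hv'
      rw [Set.indicator_of_notMem n1, Set.indicator_of_notMem n2, h]
      linarith
    · have n1 : v ∈ {v : HeightOneSpectrum (𝓞 F) | ψ v.asIdeal = -1} := h
      have n2 : v ∉ Z := by
        intro hv
        have hv' : ψ v.asIdeal = 0 := hv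
        rw [h] at hv'
        norm_num at hv'
      rw [Set.indicator_of_mem n1, Set.indicator_of_notMem n2, h]
      linarith
    · have n1 : v ∉ {v : HeightOneSpectrum (𝓞 F) | ψ v.asIdeal = -1} := by
        intro hv
        have hv' : ψ v.asIdeal = -1 := hv
        rw [h] at hv'
        norm_num at hv'
      have n2 : v ∈ Z := h
      rw [Set.indicator_of_notMem n1, Set.indicator_of_mem n2, h]
      linarith
  have hfin := Summable.tsum_le_tsum hpt (hfs.sub hψfs) ((hIs.mul_left 2).add hZs)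
  rw [hfs.tsum_sub hψfs, (hIs.mul_left 2).tsum_add hZs, tsum_mul_left, hZt, ← hB, ← hA] at hfin
  have := (abs_le.mp hP).1
  linarith

end Pool.Agent.Helper61.RS
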