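import Pool.Agent.Helper36.RS.Goals

/-!
# Packet CV: from convergence in all the Sobolev norms to smooth families
-/

namespace Pool.Agent.Helper61.RS

open Set Filter Topology MeasureTheory Pool.Agent.Helper47.RF Pool.Agent.Helper36.RS
open scoped ContDiff

theorem sn_Wd (m : ℕ) (w : List (Fin 3)) (u : XS) : sn m (Wd w u) ≤ sn (m + w.length) u := by
  induction w generalizing m with
  | nil => exact le_rfl
  | cons i w ih =>
    rw [Wd_cons]
    refine (sn_Ed m i _).trans ((ih (m + 1)).trans (le_of_eq ?_))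
    rw [List.length_cons]
    congr 1
    omega

/-- Sobolev inequality for the word derivatives -/
theorem sob_w (h : G_SOB) : ∃ C, 0 < C ∧ ∀ (w : List (Fin 3)) (u : XS) (x : HH), x ≠ 0 →
    (Ew w u.1 x) ^ 2 ≤ C * sn (4 + w.length) u := by
  obtain ⟨C, hC⟩ := h
  refine ⟨max C 1, lt_of_lt_of_le one_pos (le_max_right _ _), fun w u x hx => ?_⟩
  have h1 := hC (Wd w u) x hx
  rw [Wd_val] at h1
  calc (Ew w u.1 x) ^ 2 ≤ C * sn 4 (Wd w u) := h1
    _ ≤ max C 1 * sn 4 (Wd w u) := mul_le_mul_of_nonneg_right (le_max_left _ _) (sn_nonneg _ _)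
    _ ≤ max C 1 * sn (4 + w.length) u :=
        mul_le_mul_of_nonneg_left (sn_Wd 4 w u) (le_trans zero_le_one (le_max_right _ _))

theorem Ew_sub (w : List (Fin 3)) (u v : XS) (x : HH) :
    Ew w (u - v).1 x = Ew w u.1 x - Ew w v.1 x := by
  rw [← Wd_val, ← Wd_val, ← Wd_val, map_sub]
  rfl

theorem Ew_smul (w : List (Fin 3)) (c : ℝ) (u : XS) (x : HH) :
    Ew w (c • u).1 x = c * Ew w u.1 x := by
  rw [← Wd_val, ← Wd_val, map_smul]
  rfl

theorem Ew_cont (w : List (Fin 3)) (u : XS) : ContinuousOn (Ew w u.1) {0}ᶜ := by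
  rw [← Wd_val]
  exact (Wd w u).2.cd.continuousOn

theorem fam_of (hs : G_SOB) {τ : ℝ} {z : ℝ → XS}
    (hz : ∀ m, ∀ t ∈ Icc 0 τ, ∀ δ > 0, ∃ η > 0, ∀ s ∈ Icc 0 τ, |s - t| ≤ η →
      sn m (z s - z t) ≤ δ) : SmFam (Icc 0 τ) (fun t => (z t).1) := by
  obtain ⟨C, hC0, hC⟩ := sob_w hs
  refine ⟨fun t _ => (z t).2, fun w => ?_⟩
  rintro ⟨t, x⟩ ⟨ht, hx⟩
  have ht' : t ∈ Icc 0 τ := ht
  have hx' : x ≠ 0 := hx
  rw [ContinuousWithinAt, Metric.tendsto_nhdsWithin_nhds]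
  intro ε hε
  have hc := Ew_cont w (z t) x hx
  rw [ContinuousWithinAt, Metric.tendsto_nhdsWithin_nhds] at hc
  obtain ⟨r, hr, hc⟩ := hc (ε / 2) (half_pos hε)
  have hd : 0 < (ε / 4) ^ 2 / C := by positivity
  obtain ⟨η, hη, hz⟩ := hz (4 + w.length) t ht' _ hd
  refine ⟨min η r, lt_min hη hr, ?_⟩
  rintro ⟨s, q⟩ ⟨hs1, hq⟩ hdist
  have hs1' : s ∈ Icc 0 τ := hs1
  have hq' : q ≠ 0 := hq
  rw [Prod.dist_eq] at hdist
  have hd1 : dist s t < η := lt_of_le_of_lt (le_max_left _ _) (lt_of_lt_of_le hdist (min_le_left _ _))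
  have hd2 : dist q x < r := lt_of_le_of_lt (le_max_right _ _) (lt_of_lt_of_le hdist (min_le_right _ _))
  have h1 : dist (Ew w (z t).1 q) (Ew w (z t).1 x) < ε / 2 := hc hq hd2
  have h2 := hC w (z s - z t) q hq'
  have h3 := hz s hs1' (by rw [← Real.dist_eq]; exact hd1.le)
  have h4 : (Ew w (z s - z t).1 q) ^ 2 ≤ (ε / 4) ^ 2 := by
    refine h2.trans ((mul_le_mul_of_nonneg_left h3 hC0.le).trans (le_of_eq ?_))
    field_simp
  rw [Ew_sub] at h4
  have h5 : |Ew w (z s).1 q - Ew w (z t).1 q| ≤ ε / 4 := abs_le_of_sq_le_sq h4 (by positivity)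
  have h6 : dist (Ew w (z s).1 q) (Ew w (z t).1 x) ≤
      dist (Ew w (z s).1 q) (Ew w (z t).1 q) + dist (Ew w (z t).1 q) (Ew w (z t).1 x) :=
    dist_triangle _ _ _
  rw [Real.dist_eq (Ew w (z s).1 q) (Ew w (z t).1 q)] at h6
  change dist (Ew w (z s).1 q) (Ew w (z t).1 x) < ε
  linarith

/-- Packet CV -/
theorem cv : G_CV := by
  intro hs τ y y' hy
  have hfy : ∀ m, ∀ t ∈ Icc 0 τ, ∀ δ > 0, ∃ η > 0, ∀ s ∈ Icc 0 τ, |s - t| ≤ η →
      sn m (y s - y t) ≤ δ := by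
    intro m t ht δ hδ
    obtain ⟨η, hη, h1⟩ := hy.der m t ht 1 one_pos
    have hA : 0 < 2 * (1 + sn m (y' t)) := by have := sn_nonneg m (y' t); linarith
    have hp : 0 < Real.sqrt (δ / (2 * (1 + sn m (y' t)))) := Real.sqrt_pos.2 (div_pos hδ hA)
    refine ⟨min η (Real.sqrt (δ / (2 * (1 + sn m (y' t))))), lt_min hη hp, fun s hs1 hst => ?_⟩
    have h2 := h1 s hs1 (hst.trans (min_le_left _ _))
    have h3 : (s - t) ^ 2 ≤ δ / (2 * (1 + sn m (y' t))) := by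
      rw [← sq_abs, ← Real.sq_sqrt (div_pos hδ hA).le]
      exact pow_le_pow_left₀ (abs_nonneg _) (hst.trans (min_le_right _ _)) 2
    have h4 : y s - y t = (y s - y t - (s - t) • y' t) + (s - t) • y' t := by abel
    rw [h4]
    refine (sn_add_le m _ _).trans ?_
    rw [sn_smul]
    have h5 : (s - t) ^ 2 * (2 * (1 + sn m (y' t))) ≤ δ := (le_div_iff₀ hA).1 h3
    nlinarith
  refine ⟨fam_of hs hfy, fam_of hs hy.cont', fun w x hx t ht => ?_⟩
  obtain ⟨C, hC0, hC⟩ := sob_w hs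
  rw [hasDerivWithinAt_iff_isLittleO, Asymptotics.isLittleO_iff]
  intro c hc
  have hd : 0 < c ^ 2 / C := by positivity
  obtain ⟨η, hη, h1⟩ := hy.der (4 + w.length) t ht _ hd
  rw [eventually_nhdsWithin_iff, Metric.eventually_nhds_iff]
  refine ⟨η, hη, fun s hst hs1 => ?_⟩
  have h2 := h1 s hs1 (by rw [← Real.dist_eq]; exact hst.le)
  have h3 := hC w (y s - y t - (s - t) • y' t) x hx
  rw [Ew_sub, Ew_sub, Ew_smul] at h3
  have h4 : (Ew w (y s).1 x - Ew w (y t).1 x - (s - t) * Ew w (y' t).1 x) ^ 2 ≤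
      (c * |s - t|) ^ 2 := by
    refine h3.trans ((mul_le_mul_of_nonneg_left h2 hC0.le).trans (le_of_eq ?_))
    rw [mul_pow, sq_abs]
    field_simp
  rw [Real.norm_eq_abs, Real.norm_eq_abs, smul_eq_mul]
  exact abs_le_of_sq_le_sq h4 (by positivity)

end Pool.Agent.Helper61.RS
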