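import Pool.Agent.Helper36.RS.Goals

/-!
# Packet QF1: Lipschitz estimate with loss of derivatives
-/

namespace Pool.Agent.Helper61.RS

open Set Filter Topology MeasureTheory Pool.Agent.Helper47.RF Pool.Agent.Helper36.RS
open scoped ContDiff

section

variable {I J : Type}

theorem sn_sum3 (m : ℕ) (g : Fin 3 → XS) : sn m (∑ i, g i) ≤ 4 * ∑ i, sn m (g i) := by
  rw [Fin.sum_univ_three, Fin.sum_univ_three]
  have h1 := sn_add_le m (g 0 + g 1) (g 2)
  have h2 := sn_add_le m (g 0) (g 1)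
  have h3 := sn_nonneg m (g 2)
  linarith

theorem sn_le_qq [Fintype I] [Fintype J] (m : ℕ) (y : I ⊕ J → XS) (q : I ⊕ J) :
    sn (m + kap q) (y q) ≤ qq m y :=
  Finset.single_le_sum (f := fun q => sn (m + kap q) (y q)) (fun _ _ => sn_nonneg _ _)
    (Finset.mem_univ q)

theorem qq_nonneg [Fintype I] [Fintype J] (m : ℕ) (y : I ⊕ J → XS) : 0 ≤ qq m y :=
  Finset.sum_nonneg fun _ _ => sn_nonneg _ _

theorem qq_mono [Fintype I] [Fintype J] {m k : ℕ} (h : m ≤ k) (y : I ⊕ J → XS) :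
    qq m y ≤ qq k y :=
  Finset.sum_le_sum fun _ _ => sn_mono (by omega) _

/-- variables of the jet -/
abbrev ZJ (I J : Type) : Type := (I ⊕ ((Fin 3 × I) ⊕ J)) ⊕ (Fin 3 × J)

/-- jet of `y = (u, v)` -/
noncomputable def jt (y : I ⊕ J → XS) : ZJ I J → XS :=
  zj' (fun i => y (Sum.inl i)) fun j => y (Sum.inr j)

theorem jt_le [Fintype I] [Fintype J] (m : ℕ) (y : I ⊕ J → XS) (q : ZJ I J) :
    sn m (jt y q) ≤ qq (m + 1) y := by
  rcases q with (i | ⟨k, i⟩ | j) | ⟨k, j⟩
  · exact (sn_mono (by simp only [kap, Sum.elim_inl]; omega) _).trans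
      (sn_le_qq (m + 1) y (Sum.inl i))
  · exact (sn_Ed m k _).trans ((sn_mono (by simp only [kap, Sum.elim_inl]; omega) _).trans
      (sn_le_qq (m + 1) y (Sum.inl i)))
  · exact (sn_mono (by omega) _).trans (sn_le_qq (m + 1) y (Sum.inr j))
  · exact (sn_Ed m k _).trans (sn_le_qq (m + 1) y (Sum.inr j))

theorem jt_sub (y y' : I ⊕ J → XS) (q : ZJ I J) : jt (y - y') q = jt y q - jt y' q := by
  rcases q with (i | ⟨k, i⟩ | j) | ⟨k, j⟩
  · rfl
  · exact map_sub (Ed k) _ _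
  · rfl
  · exact map_sub (Ed k) _ _

/-- Lipschitz estimate for a polynomial of the jet -/
theorem lip_jt (hm : G_MVP) (hs : G_SOB) (hp : G_PRS) [Fintype I] [Fintype J]
    (p : MvPolynomial (ZJ I J) ℝ) (k : ℕ) (L : ℝ) :
    ∃ C, 0 ≤ C ∧ ∀ y y' : I ⊕ J → XS, qq (k + 9) y ≤ L → qq (k + 9) y' ≤ L →
      sn k (MvPolynomial.aeval (jt y) p - MvPolynomial.aeval (jt y') p) ≤
        C * qq (k + 1) (y - y') := by
  obtain ⟨C, hC⟩ := (hm hs hp (ZJ I J) p).2.1 k L
  refine ⟨max C 0 * (Fintype.card (ZJ I J) : ℝ), by positivity, fun y y' hy hy' => ?_⟩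
  have h1 := hC (jt y) (jt y') (fun q => (jt_le (k + 8) y q).trans hy)
    (fun q => (jt_le (k + 8) y' q).trans hy')
  have h2 : ∑ q, sn k (jt y q - jt y' q) ≤ (Fintype.card (ZJ I J) : ℝ) * qq (k + 1) (y - y') := by
    have h3 : ∑ q, sn k (jt y q - jt y' q) ≤ ∑ _q : ZJ I J, qq (k + 1) (y - y') := by
      refine Finset.sum_le_sum fun q _ => ?_
      rw [← jt_sub]
      exact jt_le k _ q
    rwa [Finset.sum_const, Finset.card_univ, nsmul_eq_mul] at h3
  have h4 : 0 ≤ ∑ q, sn k (jt y q - jt y' q) := Finset.sum_nonneg fun _ _ => sn_nonneg _ _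
  calc sn k (MvPolynomial.aeval (jt y) p - MvPolynomial.aeval (jt y') p)
      ≤ C * ∑ q, sn k (jt y q - jt y' q) := h1
    _ ≤ max C 0 * ∑ q, sn k (jt y q - jt y' q) := mul_le_mul_of_nonneg_right (le_max_left _ _) h4
    _ ≤ max C 0 * ((Fintype.card (ZJ I J) : ℝ) * qq (k + 1) (y - y')) :=
        mul_le_mul_of_nonneg_left h2 (le_max_right _ _)
    _ = _ := by ring

/-- polynomial of the first components -/
noncomputable def pG (D : QLD I J) (i : I) : MvPolynomial (ZJ I J) ℝ :=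
  MvPolynomial.rename (Sum.elim (fun i => Sum.inl (Sum.inl i))
    fun j => Sum.inl (Sum.inr (Sum.inr j))) (D.G i)

theorem pG_eq (D : QLD I J) (i : I) (y : I ⊕ J → XS) :
    MvPolynomial.aeval (jt y) (pG D i) = D.FF y (Sum.inl i) := by
  rw [pG, MvPolynomial.aeval_rename]
  change _ = MvPolynomial.aeval (Sum.elim (fun i => y (Sum.inl i)) fun j => y (Sum.inr j)) (D.G i)
  congr 2
  funext q
  rcases q with i | j <;> rfl

/-- polynomial of the fluxes -/
noncomputable def pF (D : QLD I J) (i : Fin 3) (j : J) : MvPolynomial (ZJ I J) ℝ :=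
  (∑ k, MvPolynomial.rename (fun a => Sum.inl (Sum.inl a)) (D.α i k) *
    MvPolynomial.X (Sum.inr (k, j))) + MvPolynomial.rename Sum.inl (D.β i j)

theorem pF_eq (D : QLD I J) (j : J) (y : I ⊕ J → XS) :
    D.FF y (Sum.inr j) = ∑ i, Ed i (MvPolynomial.aeval (jt y) (pF D i j)) +
      MvPolynomial.aeval (jt y) (D.W j) := by
  change D.FJ (fun i => y (Sum.inl i)) (fun j => y (Sum.inr j)) j = _
  rw [QLD.FJ]
  congr 1
  refine Finset.sum_congr rfl fun i _ => congrArg (Ed i) ?_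
  rw [pF, map_add, map_sum, MvPolynomial.aeval_rename]
  congr 1
  refine Finset.sum_congr rfl fun k _ => ?_
  rw [map_mul, MvPolynomial.aeval_rename, MvPolynomial.aeval_X]
  rfl

theorem comp_bound (hm : G_MVP) (hs : G_SOB) (hp : G_PRS) [Fintype I] [Fintype J]
    (D : QLD I J) (m : ℕ) (L : ℝ) (q : I ⊕ J) :
    ∃ C, 0 ≤ C ∧ ∀ y y' : I ⊕ J → XS, qq (m + 10) y ≤ L → qq (m + 10) y' ≤ L →
      sn (m + kap q) (D.FF y q - D.FF y' q) ≤ C * qq (m + 2) (y - y') := by
  rcases q with i | j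
  · obtain ⟨C, hC0, hC⟩ := lip_jt hm hs hp (pG D i) (m + 1) L
    refine ⟨C, hC0, fun y y' hy hy' => ?_⟩
    have h1 := hC y y' hy hy'
    rw [pG_eq, pG_eq] at h1
    exact h1
  · have hF := fun i => lip_jt hm hs hp (pF D i j) (m + 1) L
    choose C hC0 hC using hF
    obtain ⟨C', hC'0, hC'⟩ := lip_jt hm hs hp (D.W j) m L
    refine ⟨8 * ∑ i, C i + 2 * C', ?_, fun y y' hy hy' => ?_⟩
    · have := Finset.sum_nonneg fun i (_ : i ∈ Finset.univ) => hC0 i
      linarith
    have h1 : ∀ i, sn m (Ed i (MvPolynomial.aeval (jt y) (pF D i j)) -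
        Ed i (MvPolynomial.aeval (jt y') (pF D i j))) ≤ C i * qq (m + 2) (y - y') := by
      intro i
      rw [← map_sub]
      exact (sn_Ed m i _).trans (hC i y y' hy hy')
    have h2 : sn m (MvPolynomial.aeval (jt y) (D.W j) - MvPolynomial.aeval (jt y') (D.W j)) ≤
        C' * qq (m + 2) (y - y') :=
      (hC' y y' ((qq_mono (by omega) y).trans hy) ((qq_mono (by omega) y').trans hy')).trans
        (mul_le_mul_of_nonneg_left (qq_mono (by omega) _) hC'0)
    have h3 : D.FF y (Sum.inr j) - D.FF y' (Sum.inr j) =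
        (∑ i, (Ed i (MvPolynomial.aeval (jt y) (pF D i j)) -
          Ed i (MvPolynomial.aeval (jt y') (pF D i j)))) +
        (MvPolynomial.aeval (jt y) (D.W j) - MvPolynomial.aeval (jt y') (D.W j)) := by
      rw [pF_eq, pF_eq, Finset.sum_sub_distrib]
      abel
    change sn m _ ≤ _
    rw [h3]
    refine (sn_add_le m _ _).trans ?_
    have h4 := sn_sum3 m (fun i => Ed i (MvPolynomial.aeval (jt y) (pF D i j)) -
          Ed i (MvPolynomial.aeval (jt y') (pF D i j)))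
    have h5 : ∑ i, sn m (Ed i (MvPolynomial.aeval (jt y) (pF D i j)) -
          Ed i (MvPolynomial.aeval (jt y') (pF D i j))) ≤ (∑ i, C i) * qq (m + 2) (y - y') := by
      rw [Finset.sum_mul]
      exact Finset.sum_le_sum fun i _ => h1 i
    nlinarith

end

/-- Packet QF1 -/
theorem qf1 : G_QF1 := by
  intro hs hp hm I J _ _ D m L
  have h := fun q => comp_bound hm hs hp D m L q
  choose C hC0 hC using h
  refine ⟨∑ q, C q, fun y y' hy hy' => ?_⟩
  rw [Finset.sum_mul]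
  exact Finset.sum_le_sum fun q _ => hC q y y' hy hy'

end Pool.Agent.Helper61.RS
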